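import Pool.Agent.X247.Hp.VFree

/-!
# The homomorphism problem for submonoids of virtually free groups is decidable

For a virtually free group `H` with a finite list of elements `hg`, and a group `G` with elements
`gg b` (`b` in a countable set coded by numbers) for which the word problem is decidable, it is
decidable, given a finite list of pairs of words, whether there is a homomorphism from the
submonoid of `H` generated by the values of the first words to `G` which maps the value of each
first word to the value of the corresponding second word.
-/

set_option synthInstance.maxSize 4000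

namespace Pool.Agent.Results.MP_3ff21c_al.HomProblemDecidable

open Pool.Agent.X247.Hp

universe u v w

/-- The value of a word: the product of its letters, where `(a, true)` stands for `f a` and
`(a, false)` for its inverse. -/
def value {K : Type u} {A : Type v} [Group K] (f : A → K) (l : List (A × Bool)) : K :=
  (l.map fun a => if a.2 = true then f a.1 else (f a.1)⁻¹).prod

/-- Some homomorphism from the submonoid generated by the values of the first words to the second
group maps the value of the first word of each pair to the value of the second word. -/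
def HasExtension {H : Type u} {G : Type v} {A : Type*} {B : Type w} [Group H] [Group G]
    (hg : A → H) (gg : B → G) (x : List (List (A × Bool) × List (B × Bool))) : Prop :=
  ∃ Φ : Submonoid.closure {h : H | ∃ e ∈ x, value hg e.1 = h} →* G,
    ∀ e (he : e ∈ x), Φ ⟨value hg e.1, Submonoid.subset_closure ⟨e, he, rfl⟩⟩ = value gg e.2

/-- The group has a free subgroup of finite index. -/
def VirtuallyFree (H : Type u) [Group H] : Prop :=
  ∃ F : Subgroup H, F.FiniteIndex ∧ IsFreeGroup F

theorem value_nil {K : Type u} {A : Type v} [Group K] (f : A → K) : value f [] = 1 := rfl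

theorem value_cons {K : Type u} {A : Type v} [Group K] (f : A → K) (a : A × Bool)
    (l : List (A × Bool)) :
    value f (a :: l) = (if a.2 = true then f a.1 else (f a.1)⁻¹) * value f l := rfl

theorem value_eq_ev {K : Type u} {A : Type v} [Group K] (f : A → K) (l : List (A × Bool)) :
    value f l = ev f l := by
  unfold value ev
  rw [FreeGroup.lift_mk]
  congr 1
  refine List.map_congr_left fun a _ => ?_
  cases a.2 <;> rfl

section ext

variable {H : Type u} {G : Type v} {A : Type*} {B : Type w} [Group H] [Group G]
  (hg : A → H) (gg : B → G) (x : List (List (A × Bool) × List (B × Bool)))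

theorem hasExtension_iff : HasExtension hg gg x ↔
    ∀ u v : List (List (A × Bool) × List (B × Bool)), (∀ e ∈ u, e ∈ x) → (∀ e ∈ v, e ∈ x) →
      (u.map fun e => value hg e.1).prod = (v.map fun e => value hg e.1).prod →
      (u.map fun e => value gg e.2).prod = (v.map fun e => value gg e.2).prod := by
  classical
  set S : Set H := {h : H | ∃ e ∈ x, value hg e.1 = h} with hS
  constructor
  · rintro ⟨Φ, hΦ⟩
    have key : ∀ u : List (List (A × Bool) × List (B × Bool)), (∀ e ∈ u, e ∈ x) →
        ∃ hm : (u.map fun e => value hg e.1).prod ∈ Submonoid.closure S,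
          Φ ⟨(u.map fun e => value hg e.1).prod, hm⟩ = (u.map fun e => value gg e.2).prod := by
      intro u
      induction u with
      | nil => intro _; exact ⟨one_mem _, map_one Φ⟩
      | cons e u ih =>
        intro hu
        obtain ⟨hm, h1⟩ := ih fun e' he' => hu e' (List.mem_cons_of_mem _ he')
        have he := hu e (List.mem_cons_self ..)
        refine ⟨?_, ?_⟩
        · rw [List.map_cons, List.prod_cons]
          exact mul_mem (Submonoid.subset_closure ⟨e, he, rfl⟩) hm
        · have h2 := map_mul Φ ⟨value hg e.1, Submonoid.subset_closure ⟨e, he, rfl⟩⟩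
            ⟨(u.map fun e => value hg e.1).prod, hm⟩
          rw [hΦ e he, h1] at h2
          exact h2
    intro u v hu hv h
    obtain ⟨h1, h2⟩ := key u hu
    obtain ⟨h3, h4⟩ := key v hv
    rw [← h2, ← h4]
    congr 1
    exact Subtype.ext h
  · intro h
    have h1 : ∀ y : Submonoid.closure S, ∃ u : List (List (A × Bool) × List (B × Bool)),
        (∀ e ∈ u, e ∈ x) ∧ (u.map fun e => value hg e.1).prod = y := by
      rintro ⟨y, hy⟩
      induction hy using Submonoid.closure_induction with
      | mem y hy =>
        obtain ⟨e, he, h2⟩ := hy
        exact ⟨[e], by simpa using he, by simpa using h2⟩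
      | one => exact ⟨[], by simp, by simp⟩
      | mul y z _ _ hy hz =>
        obtain ⟨u, h2, h3⟩ := hy
        obtain ⟨v, h4, h5⟩ := hz
        refine ⟨u ++ v, ?_, ?_⟩
        · intro e he
          rcases List.mem_append.1 he with he | he
          · exact h2 e he
          · exact h4 e he
        · rw [List.map_append, List.prod_append, h3, h5]
    choose U hU1 hU2 using h1
    refine ⟨⟨⟨fun y => ((U y).map fun e => value gg e.2).prod, ?_⟩, ?_⟩, ?_⟩
    · have h2 := h (U 1) [] (hU1 1) (by simp) (by rw [hU2]; simp)
      simpa using h2
    · intro y z
      have h2 := h (U (y * z)) (U y ++ U z) (hU1 _) (by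
        intro e he
        rcases List.mem_append.1 he with he | he
        · exact hU1 _ e he
        · exact hU1 _ e he) (by
        rw [hU2, List.map_append, List.prod_append, hU2, hU2]; rfl)
      rw [List.map_append, List.prod_append] at h2
      exact h2
    · intro e he
      have h2 := h (U ⟨value hg e.1, Submonoid.subset_closure ⟨e, he, rfl⟩⟩) [e] (hU1 _)
        (by simpa using he) (by rw [hU2]; simp)
      simpa using h2

end ext

section code

variable {G : Type v} {B : Type w} [Group G] [Primcodable B] (gg : B → G)

/-- the generators, numbered -/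
def num (n : ℕ) : G := (Encodable.decode n : Option B).elim 1 gg

/-- the coded word -/
def code (l : List (B × Bool)) : GW := l.map fun a => (Encodable.encode a.1, a.2)

/-- the word of a coded word -/
def uncode (B : Type w) [Primcodable B] (l : GW) : List (B × Bool) :=
  l.filterMap fun a => (Encodable.decode a.1 : Option B).map fun b => (b, a.2)

theorem ev_code (l : List (B × Bool)) : ev (num gg) (code l) = value gg l := by
  rw [← value_eq_ev]
  unfold value code
  rw [List.map_map]
  congr 1
  refine List.map_congr_left fun a _ => ?_
  simp [num]

theorem ev_uncode (l : GW) : ev (num gg) l = value gg (uncode B l) := by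
  rw [← value_eq_ev]
  induction l with
  | nil => rfl
  | cons a l ih =>
    rw [value_cons, ih]
    unfold uncode
    cases h : (Encodable.decode a.1 : Option B) with
    | none =>
      rw [List.filterMap_cons_none (by rw [h]; rfl)]
      have : num gg a.1 = 1 := by rw [num, h]; rfl
      rw [this]
      simp
    | some b =>
      rw [List.filterMap_cons_some (by rw [h]; rfl), value_cons]
      have : num gg a.1 = gg b := by rw [num, h]; rfl
      rw [this]

theorem primrec_uncode : Primrec (uncode B) := by
  refine Primrec.listFilterMap Primrec.id ?_
  exact (Primrec.option_map (Primrec.decode.comp (Primrec.fst.comp Primrec.snd))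
    (Primrec.snd.pair (Primrec.snd.comp (Primrec.snd.comp Primrec.fst))).to₂).to₂

theorem primrec_code : Primrec (code : List (B × Bool) → GW) := by
  refine Primrec.list_map Primrec.id ?_
  exact ((Primrec.encode.comp (Primrec.fst.comp Primrec.snd)).pair
    (Primrec.snd.comp Primrec.snd)).to₂

/-- the pairs with the second words coded -/
def tr {m : ℕ} (x : List (Wd m × List (B × Bool))) : List (Wd m × GW) :=
  x.map fun e => (e.1, code e.2)

theorem primrec_tr {m : ℕ} : Primrec (tr : List (Wd m × List (B × Bool)) → List (Wd m × GW)) := by
  refine Primrec.list_map Primrec.id ?_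
  exact ((Primrec.fst.comp Primrec.snd).pair
    (primrec_code.comp (Primrec.snd.comp Primrec.snd))).to₂

theorem lift_list {m : ℕ} (x : List (Wd m × List (B × Bool))) : ∀ u : List (Wd m × GW),
    (∀ e ∈ u, e ∈ tr x) → ∃ u', (∀ e ∈ u', e ∈ x) ∧ tr u' = u := by
  intro u
  induction u with
  | nil => intro _; exact ⟨[], by simp, rfl⟩
  | cons e u ih =>
    intro h
    obtain ⟨u', h1, h2⟩ := ih fun e' he' => h e' (List.mem_cons_of_mem _ he')
    obtain ⟨e', h3, h4⟩ := List.mem_map.1 (h e (List.mem_cons_self ..))
    refine ⟨e' :: u', ?_, ?_⟩
    · intro e'' he''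
      rcases List.mem_cons.1 he'' with rfl | he''
      · exact h3
      · exact h1 _ he''
    · rw [← h4, ← h2]
      rfl

theorem rel_iff {H : Type u} [Group H] {m : ℕ} (hg : Fin m → H)
    (x : List (Wd m × List (B × Bool))) : Rel hg (num gg) (tr x) ↔ HasExtension hg gg x := by
  rw [hasExtension_iff]
  have e1 : ∀ u : List (Wd m × List (B × Bool)),
      prH hg (tr u) = (u.map fun e => value hg e.1).prod := by
    intro u
    unfold prH tr
    rw [List.map_map]
    congr 1
    exact List.map_congr_left fun e _ => (value_eq_ev hg e.1).symm
  have e2 : ∀ u : List (Wd m × List (B × Bool)),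
      prG (num gg) (tr u) = (u.map fun e => value gg e.2).prod := by
    intro u
    unfold prG tr
    rw [List.map_map]
    congr 1
    exact List.map_congr_left fun e _ => ev_code gg e.2
  constructor
  · intro h u v hu hv huv
    have h1 := h (tr u) (tr v) (fun e he => by
      obtain ⟨e', h2, h3⟩ := List.mem_map.1 he
      exact List.mem_map.2 ⟨e', hu e' h2, h3⟩) (fun e he => by
      obtain ⟨e', h2, h3⟩ := List.mem_map.1 he
      exact List.mem_map.2 ⟨e', hv e' h2, h3⟩) (by rw [e1, e1, huv])
    rw [e2, e2] at h1
    exact h1
  · intro h u v hu hv huv
    obtain ⟨u, hu', rfl⟩ := lift_list x u hu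
    obtain ⟨v, hv', rfl⟩ := lift_list x v hv
    rw [e1, e1] at huv
    rw [e2, e2]
    exact h u v hu' hv' huv

end code

/-- The homomorphism problem is decidable, for submonoids of free groups and for submonoids of
virtually free groups. -/
theorem result {G : Type v} {B : Type w} [Group G] [Primcodable B] (gg : B → G)
    (hwp : ComputablePred fun l : List (B × Bool) => value gg l = 1) :
    (∀ n : ℕ, ComputablePred fun x : List (List (Fin n × Bool) × List (B × Bool)) =>
      HasExtension (FreeGroup.of : Fin n → FreeGroup (Fin n)) gg x) ∧
    ∀ (H : Type u) [Group H], VirtuallyFree H → ∀ (m : ℕ) (hg : Fin m → H),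
      ComputablePred fun x : List (List (Fin m × Bool) × List (B × Bool)) =>
        HasExtension hg gg x := by
  have hwp' : ComputablePred fun l : GW => ev (num gg) l = 1 := by
    refine (Pool.Agent.Helper446.RE.cp_comp hwp (primrec_uncode (B := B)).to_comp).of_eq
      fun l => ?_
    rw [ev_uncode]
  have main : ∀ (H : Type u) [Group H] (F : Subgroup H) [F.FiniteIndex] [IsFreeGroup F] (m : ℕ)
      (hg : Fin m → H), ComputablePred fun x : List (List (Fin m × Bool) × List (B × Bool)) =>
        HasExtension hg gg x := by
    intro H _ F _ _ m hg
    refine (Pool.Agent.Helper446.RE.cp_comp (cp_rel F hg (num gg) hwp')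
      (primrec_tr (m := m) (B := B)).to_comp).of_eq fun x => ?_
    exact rel_iff gg hg x
  have main0 : ∀ (n : ℕ), ComputablePred fun x : List (List (Fin n × Bool) ×
      List (B × Bool)) => HasExtension (FreeGroup.of : Fin n → FreeGroup (Fin n)) gg x := by
    intro n
    refine (Pool.Agent.Helper446.RE.cp_comp (cp_rel (⊤ : Subgroup (FreeGroup (Fin n)))
      FreeGroup.of (num gg) hwp') (primrec_tr (m := n) (B := B)).to_comp).of_eq fun x => ?_
    exact rel_iff gg _ x
  refine ⟨main0, fun H _ hH m hg => ?_⟩
  obtain ⟨F, h1, h2⟩ := hH
  exact main H F m hg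

end Pool.Agent.Results.MP_3ff21c_al.HomProblemDecidable
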